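import Pool.Agent.Helper21K2.Fin

/-!
A one-sided criterion for smooth solutions of the Navier-Stokes equations on the torus, at the level
of the scale-invariant norm of order one half: only the positive part of the triple product of the
velocity, the vorticity `ω` and `Λ u`, `Λ = (-Δ)^(1/2)`, enters.
-/

set_option autoImplicit false

open MeasureTheory Set
open scoped ENNReal

namespace Pool.Agent.Results.MP_6bf1e5_an.CriticalTriple

open H459R3.NS Pool.Agent.W268.NS Pool.Agent.Helper21K2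

/-- Let `3 < p₁ ≤ ∞`, `3 / p₁ + 2 / q₁ = 1`, `3/2 < p₂, p₃ ≤ 6`, `3 / pᵢ + 2 / qᵢ = 2`, `κ < 1`, and
let `(u, P)` be a smooth `1`-periodic solution with viscosity `ν > 0` on `[0, T)`. Let `w` be the
velocity minus its mean, `ω` the vorticity, `Λ = (-Δ)^(1/2)`, and let `c(t)` be any vector that
depends on the time only. If at almost every point, at every time,
`(u - c) · (ω × Λ u) ≤ κ ν |Λ^(3/2) u|² + a |ω × Λ u| + b |w × Λ u| + g |w × ω|`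
with `a ∈ L^q₁ L^p₁`, `b ∈ L^q₂ L^p₂`, `g ∈ L^q₃ L^p₃`, then `u` is bounded on `[0, T)`. -/
theorem result {p₁ p₂ p₃ : ℝ≥0∞} (hp₁ : 3 < p₁) (hp₂ : 3 / 2 < p₂) (hp₂' : p₂ ≤ 6)
    (hp₃ : 3 / 2 < p₃) (hp₃' : p₃ ≤ 6) {q₁ q₂ q₃ : ℝ}
    (h₁ : 3 * (p₁⁻¹).toReal + 2 / q₁ = 1) (h₂ : 3 * (p₂⁻¹).toReal + 2 / q₂ = 2)
    (h₃ : 3 * (p₃⁻¹).toReal + 2 / q₃ = 2) {ν κ T : ℝ} (hν : 0 < ν) (hκ : κ < 1)
    {u : ℝ → V → V} {P : ℝ → V → ℝ} (h : IsSol ν T u P) {c : ℝ → V} {a b g : ℝ → V → ℝ}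
    {α β γ : ℝ → ℝ} (h0 : ∀ t ∈ Ioo 0 T, 0 ≤ α t ∧ 0 ≤ β t ∧ 0 ≤ γ t)
    (hα : IntegrableOn (fun t => α t ^ q₁) (Ioo 0 T))
    (hβ : IntegrableOn (fun t => β t ^ q₂) (Ioo 0 T))
    (hγ : IntegrableOn (fun t => γ t ^ q₃) (Ioo 0 T))
    (hm : ∀ t ∈ Ioo 0 T, AEStronglyMeasurable (a t) (volume.restrict cube) ∧
      AEStronglyMeasurable (b t) (volume.restrict cube) ∧
      AEStronglyMeasurable (g t) (volume.restrict cube))
    (hb : ∀ t ∈ Ioo 0 T, eLpNorm (a t) p₁ (volume.restrict cube) ≤ ENNReal.ofReal (α t) ∧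
      eLpNorm (b t) p₂ (volume.restrict cube) ≤ ENNReal.ofReal (β t) ∧
      eLpNorm (g t) p₃ (volume.restrict cube) ≤ ENNReal.ofReal (γ t))
    (hle : ∀ t ∈ Ioo 0 T, ∀ᵐ x ∂(volume.restrict cube),
      triple (u t x - c t) (vort (u t) x) (LamV 1 (u t) x)
        ≤ κ * ν * en (LamV (3 / 2) (u t) x) ^ 2
          + a t x * en (crossProduct (vort (u t) x) (LamV 1 (u t) x))
          + b t x * en (crossProduct (u t x - mean (u t)) (LamV 1 (u t) x))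
          + g t x * en (crossProduct (u t x - mean (u t)) (vort (u t) x))) :
    ∃ M, ∀ t ∈ Ico 0 T, ∀ x i, |u t x i| ≤ M :=
  main hp₁ hp₂ hp₂' hp₃ hp₃' h₁ h₂ h₃ hν hκ h h0 hα hβ hγ hm hb hle

end Pool.Agent.Results.MP_6bf1e5_an.CriticalTriple
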