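import Pool.Agent.Helper21X.Core
import Pool.Agent.R202.Rot

/-!
# Differences or longer sums

If multiplication by almost all the differences of a large finite family of integers preserves an
atomless probability measure on the circle which is not Lebesgue measure, then multiplication by almost
all the longer signed sums of the family does not preserve it. No assumption on entropy or ergodicity.
-/

set_option autoImplicit false

open MeasureTheory Filter Topology Set
open scoped ENNReal ComplexConjugate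

namespace Pool.Agent.Helper21.Hold.DifferencesOrSumsThreeParts

open Pool.Agent.Helper21X

lemma fourier_one_torsion {n : ℤ} {x : UnitAddCircle} (h : (fourier n x : ℂ) = 1) : n • x = 0 := by
  rw [fourier_apply] at h
  have h2 : AddCircle.toCircle (n • x) = 1 := by
    apply Subtype.ext
    rw [h]
    rfl
  have h3 : AddCircle.toCircle (n • x) = AddCircle.toCircle (0 : UnitAddCircle) := by
    rw [h2, AddCircle.toCircle_zero]
  exact AddCircle.injective_toCircle one_ne_zero h3

lemma torsion_null (ν : Measure UnitAddCircle) (hna : ∀ x, ν {x} = 0) {n : ℤ} (hn : n ≠ 0) :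
    ν {x | (fourier n x : ℂ) = 1} = 0 := by
  have hfin : {x : UnitAddCircle | (fourier n x : ℂ) = 1}.Finite := by
    refine (AddCircle.finite_torsion (1 : ℝ) (Int.natAbs_pos.2 hn)).subset fun x hx => ?_
    have h1 := fourier_one_torsion hx
    show n.natAbs • x = 0
    rcases Int.natAbs_eq n with h | h
    · rw [h, natCast_zsmul] at h1
      exact h1
    · rw [h, neg_smul, natCast_zsmul, neg_eq_zero] at h1
      exact h1
  have : NullSingletonClass ν := ⟨hna⟩
  exact hfin.measure_zero ν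

lemma vol_fourier {n : ℤ} (hn : n ≠ 0) : ∫ x, (fourier n x : ℂ) ∂(volume : Measure UnitAddCircle) = 0 := by
  refine Pool.Agent.R202.coeff_zero (θ := Real.sqrt 2) irrational_sqrt_two ?_ hn
  exact (measurePreserving_add_right volume _).map_eq

/-- the mass near the zeros is small -/
lemma MM_small (ν : Measure UnitAddCircle) [IsProbabilityMeasure ν] (hna : ∀ x, ν {x} = 0) {n : ℤ} (hn : n ≠ 0)
    {ε : ℝ} (hε : 0 < ε) : ∃ τ : ℝ, 0 < τ ∧ MM ν n τ ≤ ε := by
  set S : ℕ → Set UnitAddCircle := fun k => {x | ‖1 - (fourier n x : ℂ)‖ ^ 2 ≤ 1 / ((k : ℝ) + 1)} with hS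
  have hanti : Antitone S := by
    intro i j hij x hx
    have hij' : (i : ℝ) ≤ j := by exact_mod_cast hij
    have hx' : ‖1 - (fourier n x : ℂ)‖ ^ 2 ≤ 1 / ((j : ℝ) + 1) := hx
    show ‖1 - (fourier n x : ℂ)‖ ^ 2 ≤ 1 / ((i : ℝ) + 1)
    exact hx'.trans (one_div_le_one_div_of_le (by positivity) (by linarith))
  have hint : ⋂ k, S k ⊆ {x | (fourier n x : ℂ) = 1} := by
    intro x hx
    rw [mem_iInter] at hx
    have h1 : ‖1 - (fourier n x : ℂ)‖ ^ 2 ≤ 0 :=
      ge_of_tendsto tendsto_one_div_add_atTop_nhds_zero_nat (Eventually.of_forall fun k => hx k)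
    have h2 : ‖1 - (fourier n x : ℂ)‖ = 0 := by
      have := norm_nonneg (1 - (fourier n x : ℂ))
      nlinarith
    rw [norm_eq_zero, sub_eq_zero] at h2
    exact h2.symm
  have hnull : ν (⋂ k, S k) = 0 := measure_mono_null hint (torsion_null ν hna hn)
  have hlim : Tendsto (fun k => ν (S k)) atTop (𝓝 0) := by
    rw [← hnull]
    exact tendsto_measure_iInter_atTop (fun k => (meas_near n _).nullMeasurableSet) hanti ⟨0, measure_ne_top _ _⟩
  have hlim' : Tendsto (fun k : ℕ => MM ν n (1 / ((k : ℝ) + 1))) atTop (𝓝 0) := by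
    exact (ENNReal.tendsto_toReal ENNReal.zero_ne_top).comp hlim
  obtain ⟨k, hk⟩ := (hlim'.eventually (gt_mem_nhds hε)).exists
  have hk0 : (0 : ℝ) < 1 / ((k : ℝ) + 1) := by positivity
  exact ⟨1 / ((k : ℝ) + 1), hk0, hk.le⟩

/-- Part one. -/
theorem part_one (ν : Measure UnitAddCircle) [IsProbabilityMeasure ν] (hna : ∀ x, ν {x} = 0) (hne : ν ≠ volume)
    {s : ℕ} {θ : ℝ} (hs : 3 ≤ s) (hθ : 0 < θ) : ∃ δ : ℝ, 0 < δ ∧
    ∀ μ : Measure UnitAddCircle, IsProbabilityMeasure μ → ∀ (r : ℕ) (a : Fin r → ℤ), 1 ≤ δ * r →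
      ({q : Fin r × Fin r | q.2 < q.1 ∧ μ.map (fun x => (a q.1 - a q.2) • x) ≠ ν}.ncard : ℝ) ≤ δ * r ^ 2 →
      ∀ e : Fin s → ℤ, (∀ l, e l = 1 ∨ e l = -1) →
      ({t : Fin s → Fin r | μ.map (fun x => (∑ l, e l * a (t l)) • x) = ν}.ncard : ℝ) ≤ θ * r ^ s := by
  classical
  -- a nonzero coefficient
  obtain ⟨n, hn0, hc⟩ : ∃ n : ℤ, n ≠ 0 ∧ cc ν n ≠ 0 := by
    by_contra hcon
    push Not at hcon
    refine hne (Pool.Agent.R202.ext_fourier fun n => ?_)
    by_cases hn : n = 0
    · subst hn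
      have h0 : (volume : Measure UnitAddCircle) univ = 1 := UnitAddCircle.measure_univ
      simp [measureReal_def, h0]
    · rw [vol_fourier hn]
      exact hcon n hn
  have hcpos : 0 < ‖cc ν n‖ := norm_pos_iff.2 hc
  set ε : ℝ := ‖cc ν n‖ / 4 with hε
  have hεpos : 0 < ε := by positivity
  obtain ⟨τ, hτ, hMτ⟩ := MM_small ν hna hn0 (ε := ε / 2) (by positivity)
  set η : ℝ := τ / 16 with hη
  have hηpos : 0 < η := by positivity
  have h16 : 16 * η = τ := by rw [hη]; ring
  -- choice of delta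
  have hlim : Tendsto (fun δ : ℝ => (6 * δ + s / θ * Real.sqrt (6 * δ)) / η + s / θ * Real.sqrt (6 * δ))
      (𝓝[>] 0) (𝓝 0) := by
    have hc1 : Continuous fun δ : ℝ => (6 * δ + s / θ * Real.sqrt (6 * δ)) / η + s / θ * Real.sqrt (6 * δ) := by
      fun_prop
    have := (hc1.tendsto 0).mono_left (nhdsWithin_le_nhds (s := Ioi (0 : ℝ)))
    simpa using this
  obtain ⟨δ, ⟨hδ1, hδ2⟩, hδ0⟩ := ((hlim.eventually (gt_mem_nhds (show (0 : ℝ) < ε by positivity))).and
    ((show ∀ᶠ δ : ℝ in 𝓝[>] 0, δ < 1 / 6 from nhdsWithin_le_nhds (gt_mem_nhds (by norm_num))))).and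
    (self_mem_nhdsWithin) |>.exists
  refine ⟨δ, hδ0, ?_⟩
  intro μ hμ r a hr hB e he
  by_contra hcon
  push Not at hcon
  have hr0 : (0 : ℝ) < r := by
    by_contra h
    push Not at h
    have : δ * r ≤ 0 := mul_nonpos_of_nonneg_of_nonpos hδ0.le h
    linarith
  have hrpos : 0 < r := by exact_mod_cast hr0
  have : Nonempty (Fin r) := ⟨⟨0, hrpos⟩⟩
  -- the bad pairs
  set B : Set (Fin r × Fin r) := {q | q.2 < q.1 ∧ μ.map (fun x => (a q.1 - a q.2) • x) ≠ ν} with hBdef
  have hbadsub : (Finset.univ.filter fun ij : Fin r × Fin r => ¬ Good μ ν a ij.1 ij.2) ⊆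
      ((Finset.univ : Finset (Fin r)).image fun i => (i, i)) ∪ (B.toFinite.toFinset ∪
        B.toFinite.toFinset.image Prod.swap) := by
    intro ij hij
    rw [Finset.mem_filter] at hij
    have hng := hij.2
    unfold Good at hng
    push Not at hng
    rw [Finset.mem_union, Finset.mem_union, Finset.mem_image, Finset.mem_image]
    rcases lt_trichotomy ij.1 ij.2 with h | h | h
    · right; right
      refine ⟨(ij.2, ij.1), ?_, rfl⟩
      rw [Set.Finite.mem_toFinset]
      exact ⟨h, hng.2⟩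
    · left
      exact ⟨ij.1, Finset.mem_univ _, Prod.ext rfl h⟩
    · right; left
      rw [Set.Finite.mem_toFinset]
      exact ⟨h, hng.1⟩
  have hBcard : (B.toFinite.toFinset.card : ℝ) = (B.ncard : ℝ) := by
    rw [Set.ncard_eq_toFinset_card B B.toFinite]
  have hbadcard : ((Finset.univ.filter fun ij : Fin r × Fin r => ¬ Good μ ν a ij.1 ij.2).card : ℝ) ≤
      3 * δ * r ^ 2 := by
    have h1 := Finset.card_le_card hbadsub
    have h2 : (((Finset.univ : Finset (Fin r)).image fun i => (i, i)) ∪ (B.toFinite.toFinset ∪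
        B.toFinite.toFinset.image Prod.swap)).card ≤ r + (B.toFinite.toFinset.card + B.toFinite.toFinset.card) := by
      refine (Finset.card_union_le _ _).trans (add_le_add ?_ ((Finset.card_union_le _ _).trans
        (add_le_add le_rfl Finset.card_image_le)))
      refine Finset.card_image_le.trans ?_
      simp
    have h3 : ((Finset.univ.filter fun ij : Fin r × Fin r => ¬ Good μ ν a ij.1 ij.2).card : ℝ) ≤
        r + (B.toFinite.toFinset.card + B.toFinite.toFinset.card) := by exact_mod_cast h1.trans h2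
    rw [hBcard] at h3
    have h4 : (r : ℝ) ≤ δ * r ^ 2 := by nlinarith
    nlinarith
  have hcardFin : (Fintype.card (Fin r) : ℝ) = r := by simp
  have hQQ : QQ μ ν n a ≤ 6 * δ * r ^ 2 := by
    have := QQ_le (μ := μ) (ν := ν) (n := n) (a := a)
    linarith
  have hκ : QQ μ ν n a / (Fintype.card (Fin r) : ℝ) ^ 2 ≤ 6 * δ := by
    rw [hcardFin, div_le_iff₀ (by positivity)]
    linarith
  have hR : Real.sqrt (QQ μ ν n a) / Fintype.card (Fin r) ≤ Real.sqrt (6 * δ) := by
    rw [hcardFin, div_le_iff₀ hr0]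
    calc Real.sqrt (QQ μ ν n a) ≤ Real.sqrt (6 * δ * r ^ 2) := Real.sqrt_le_sqrt hQQ
      _ = Real.sqrt (6 * δ) * r := by
          rw [Real.sqrt_mul (by positivity), Real.sqrt_sq hr0.le]
  set T : Set (Fin s → Fin r) := {t | μ.map (fun x => (∑ l, e l * a (t l)) • x) = ν} with hT
  have hTcard : (T.toFinite.toFinset.card : ℝ) = (T.ncard : ℝ) := by
    rw [Set.ncard_eq_toFinset_card T T.toFinite]
  have hb := bound (μ := μ) (ν := ν) (n := n) (a := a) hηpos hθ hs e he
    (by rw [hcardFin]; nlinarith [hbadcard, pow_pos hr0 2]) T.toFinite.toFinset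
    (fun t ht => by rw [Set.Finite.mem_toFinset] at ht; exact ht)
    (by rw [hcardFin, hTcard]; exact hcon.le)
  rw [h16] at hb
  have hs0 : (0 : ℝ) ≤ s / θ := by positivity
  have h1 : (QQ μ ν n a / (Fintype.card (Fin r) : ℝ) ^ 2 +
      s / θ * (Real.sqrt (QQ μ ν n a) / Fintype.card (Fin r))) / η ≤ (6 * δ + s / θ * Real.sqrt (6 * δ)) / η := by
    refine div_le_div_of_nonneg_right ?_ hηpos.le
    exact add_le_add hκ (mul_le_mul_of_nonneg_left hR hs0)
  have h2 : s / θ * (Real.sqrt (QQ μ ν n a) / Fintype.card (Fin r)) ≤ s / θ * Real.sqrt (6 * δ) :=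
    mul_le_mul_of_nonneg_left hR hs0
  have h3 : ‖cc ν n‖ < ε + ε := by linarith
  rw [hε] at h3
  linarith

lemma pres_iff {μ : Measure UnitAddCircle} {m : ℤ} :
    MeasurePreserving (fun x : UnitAddCircle => m • x) μ μ ↔ μ.map (fun x => m • x) = μ :=
  ⟨fun h => h.map_eq, fun h => ⟨measurable_smul_int m, h⟩⟩

/-- Part two. -/
theorem part_two (μ : Measure UnitAddCircle) [IsProbabilityMeasure μ] (hna : ∀ x, μ {x} = 0) (hne : μ ≠ volume)
    {s : ℕ} {θ : ℝ} (hs : 3 ≤ s) (hθ : 0 < θ) : ∃ δ : ℝ, 0 < δ ∧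
    ∀ p : ℕ, MeasurePreserving (fun x : UnitAddCircle => p • x) μ μ → ∀ K : ℕ, 1 ≤ δ * K →
      ({k : ℕ | 1 ≤ k ∧ k < K ∧
        ¬ MeasurePreserving (fun x : UnitAddCircle => ((p : ℤ) ^ k - 1) • x) μ μ}.ncard : ℝ) ≤ δ * K →
      ∀ e : Fin s → ℤ, (∀ l, e l = 1 ∨ e l = -1) →
      ({t : Fin s → ℕ | (∀ l, t l < K) ∧
        MeasurePreserving (fun x : UnitAddCircle => (∑ l, e l * (p : ℤ) ^ (t l)) • x) μ μ}.ncard : ℝ) ≤
          θ * K ^ s := by
  classical
  obtain ⟨δ, hδ, H⟩ := part_one μ hna hne hs hθ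
  refine ⟨δ, hδ, ?_⟩
  intro p hp K hK hB e he
  have h1 := H μ inferInstance K (fun k => (p : ℤ) ^ (k : ℕ)) hK ?_ e he
  · refine le_trans (le_of_eq ?_) h1
    congr 1
    rw [← Set.ncard_image_of_injective {t : Fin s → Fin K |
      μ.map (fun x => (∑ l, e l * (p : ℤ) ^ ((t l : Fin K) : ℕ)) • x) = μ}
      (f := fun (t : Fin s → Fin K) (l : Fin s) => ((t l : Fin K) : ℕ))
      (fun t t' htt' => by
        funext l
        exact Fin.ext (congrFun htt' l))]
    congr 1
    ext t
    simp only [mem_ofPred_eq, mem_image]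
    constructor
    · rintro ⟨h2, h3⟩
      exact ⟨fun l => ⟨t l, h2 l⟩, pres_iff.1 h3, rfl⟩
    · rintro ⟨t', h2, rfl⟩
      exact ⟨fun l => (t' l).2, pres_iff.2 h2⟩
  · -- the bad pairs
    set B : Set ℕ := {k : ℕ | 1 ≤ k ∧ k < K ∧
        ¬ MeasurePreserving (fun x : UnitAddCircle => ((p : ℤ) ^ k - 1) • x) μ μ} with hBdef
    have hBfin : B.Finite := (Set.finite_lt_nat K).subset fun k hk => hk.2.1
    set C : Set (Fin K × Fin K) := {q | q.2 < q.1 ∧
      μ.map (fun x => ((p : ℤ) ^ ((q.1 : Fin K) : ℕ) - (p : ℤ) ^ ((q.2 : Fin K) : ℕ)) • x) ≠ μ} with hC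
    have hCB : ∀ q ∈ C, ((q.1 : ℕ) - (q.2 : ℕ)) ∈ B := by
      intro q hq
      obtain ⟨hq1, hq2⟩ := hq
      have hq1' : (q.2 : ℕ) < (q.1 : ℕ) := hq1
      have hlt := q.1.2
      refine ⟨by omega, by omega, fun hpres => hq2 ?_⟩
      have hpow : ∀ j : ℕ, MeasurePreserving (fun x : UnitAddCircle => ((p : ℤ) ^ j) • x) μ μ := by
        intro j
        induction j with
        | zero =>
          have h5 : (fun x : UnitAddCircle => ((p : ℤ) ^ 0) • x) = id := by
            funext x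
            simp
          rw [h5]
          exact MeasurePreserving.id μ
        | succ j ih =>
          have h3 := hp.comp ih
          have h4 : ((fun x : UnitAddCircle => p • x) ∘ fun x : UnitAddCircle => ((p : ℤ) ^ j) • x) =
              fun x : UnitAddCircle => ((p : ℤ) ^ (j + 1)) • x := by
            funext x
            simp only [Function.comp_apply]
            rw [pow_succ', mul_smul, natCast_zsmul]
          rw [h4] at h3
          exact h3
      have h3 := (hpow q.2).comp hpres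
      have h4 : ((fun x : UnitAddCircle => ((p : ℤ) ^ (q.2 : ℕ)) • x) ∘
          fun x : UnitAddCircle => ((p : ℤ) ^ ((q.1 : ℕ) - (q.2 : ℕ)) - 1) • x) =
          fun x : UnitAddCircle => ((p : ℤ) ^ ((q.1 : Fin K) : ℕ) - (p : ℤ) ^ ((q.2 : Fin K) : ℕ)) • x := by
        funext x
        simp only [Function.comp_apply]
        rw [← mul_smul, mul_sub, mul_one, ← pow_add, Nat.add_sub_cancel' hq1'.le]
      rw [h4] at h3
      exact h3.map_eq
    have hinj : Set.InjOn (fun q : Fin K × Fin K => (((q.1 : ℕ) - (q.2 : ℕ)), q.2)) C := by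
      intro q hq q' hq' hqq'
      have h1 : (q.2 : ℕ) < (q.1 : ℕ) := hq.1
      have h2 : (q'.2 : ℕ) < (q'.1 : ℕ) := hq'.1
      have h3 := congrArg Prod.fst hqq'
      have h4 := congrArg Prod.snd hqq'
      simp only at h3 h4
      have h5 : (q.2 : ℕ) = (q'.2 : ℕ) := by rw [h4]
      refine Prod.ext (Fin.ext ?_) h4
      omega
    have hcount : C.ncard ≤ B.ncard * K := by
      have h5 : C.ncard ≤ (B ×ˢ (univ : Set (Fin K))).ncard := by
        refine Set.ncard_le_ncard_of_injOn _ ?_ hinj (hBfin.prod Set.finite_univ)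
        intro q hq
        exact ⟨hCB q hq, mem_univ _⟩
      rw [Set.ncard_prod, Set.ncard_univ, Nat.card_eq_fintype_card, Fintype.card_fin] at h5
      exact h5
    have hcount' : (C.ncard : ℝ) ≤ B.ncard * K := by exact_mod_cast hcount
    calc (C.ncard : ℝ) ≤ B.ncard * K := hcount'
      _ ≤ δ * K * K := mul_le_mul_of_nonneg_right hB (Nat.cast_nonneg K)
      _ = δ * K ^ 2 := by ring

/-- Part three. -/
theorem part_three (μ : Measure UnitAddCircle) [IsProbabilityMeasure μ] (hna : ∀ x, μ {x} = 0) (a : ℕ → ℤ)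
    (h2 : ∀ i j, i < j → MeasurePreserving (fun x : UnitAddCircle => (a j - a i) • x) μ μ)
    {s : ℕ} (hs : 3 ≤ s) (e : Fin s → ℤ) (he : ∀ l, e l = 1 ∨ e l = -1)
    (h3 : ∀ t : Fin s → ℕ, StrictMono t →
      MeasurePreserving (fun x : UnitAddCircle => (∑ l, e l * a (t l)) • x) μ μ) : μ = volume := by
  classical
  by_contra hne
  have hspos : 0 < s := by omega
  have hs0 : (0 : ℝ) < (s : ℝ) ^ s := by positivity
  obtain ⟨δ, hδ, H⟩ := part_one μ hna hne hs (θ := 1 / (2 * (s : ℝ) ^ s)) (by positivity)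
  obtain ⟨m, hm⟩ := exists_nat_ge (1 / δ)
  have hδm : 1 ≤ δ * m := by
    rw [div_le_iff₀ hδ] at hm
    linarith
  have hm0 : (0 : ℝ) < m := by
    by_contra h
    push Not at h
    have : δ * m ≤ 0 := mul_nonpos_of_nonneg_of_nonpos hδ.le h
    linarith
  have hmpos : 0 < m := by exact_mod_cast hm0
  have h4 := H μ inferInstance (s * m) (fun i => a i) ?_ ?_ e he
  · -- many ordered tuples
    have h5 : m ^ s ≤ {t : Fin s → Fin (s * m) |
        μ.map (fun x => (∑ l, e l * a ((t l : Fin (s * m)) : ℕ)) • x) = μ}.ncard := by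
      have hlt : ∀ (t : Fin s → Fin m) (l : Fin s), (l : ℕ) * m + (t l : ℕ) < s * m := by
        intro t l
        have h6 := l.2
        have h7 := (t l).2
        calc (l : ℕ) * m + (t l : ℕ) < (l : ℕ) * m + m := by omega
          _ = (l + 1) * m := by ring
          _ ≤ s * m := Nat.mul_le_mul_right _ h6
      set f : (Fin s → Fin m) → (Fin s → Fin (s * m)) := fun t l => ⟨(l : ℕ) * m + (t l : ℕ), hlt t l⟩ with hf
      have hfinj : Function.Injective f := by
        intro t t' htt'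
        funext l
        have h6 := congrArg Fin.val (congrFun htt' l)
        simp only [hf] at h6
        exact Fin.ext (by omega)
      have h6 : (univ : Set (Fin s → Fin m)).ncard = m ^ s := by
        rw [Set.ncard_univ, Nat.card_eq_fintype_card, Fintype.card_fun, Fintype.card_fin, Fintype.card_fin]
      rw [← h6]
      refine Set.ncard_le_ncard_of_injOn f ?_ hfinj.injOn (Set.toFinite _)
      intro t _
      show μ.map (fun x => (∑ l, e l * a ((f t l : Fin (s * m)) : ℕ)) • x) = μ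
      refine (h3 (fun l => ((f t l : Fin (s * m)) : ℕ)) ?_).map_eq
      intro l l' hll'
      have h7 := (t l).2
      have h8 : (l : ℕ) + 1 ≤ (l' : ℕ) := hll'
      show (l : ℕ) * m + (t l : ℕ) < (l' : ℕ) * m + (t l' : ℕ)
      calc (l : ℕ) * m + (t l : ℕ) < (l : ℕ) * m + m := by omega
        _ = (l + 1) * m := by ring
        _ ≤ (l' : ℕ) * m := Nat.mul_le_mul_right _ h8
        _ ≤ _ := Nat.le_add_right _ _
    have h5' : ((m : ℝ)) ^ s ≤ ({t : Fin s → Fin (s * m) |
        μ.map (fun x => (∑ l, e l * a ((t l : Fin (s * m)) : ℕ)) • x) = μ}.ncard : ℝ) := by exact_mod_cast h5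
    have h6 := h5'.trans h4
    push_cast at h6
    rw [mul_pow] at h6
    have h7 : 1 / (2 * (s : ℝ) ^ s) * ((s : ℝ) ^ s * (m : ℝ) ^ s) = (m : ℝ) ^ s / 2 := by
      field_simp
    rw [h7] at h6
    have : (0 : ℝ) < (m : ℝ) ^ s := pow_pos hm0 s
    linarith
  · push_cast
    have : (1 : ℝ) ≤ s := by exact_mod_cast hspos
    calc (1 : ℝ) ≤ δ * m := hδm
      _ = δ * (1 * m) := by ring
      _ ≤ δ * (s * m) := by gcongr
  · have h5 : {q : Fin (s * m) × Fin (s * m) | q.2 < q.1 ∧
        μ.map (fun x => (a ((q.1 : Fin (s * m)) : ℕ) - a ((q.2 : Fin (s * m)) : ℕ)) • x) ≠ μ} = ∅ := by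
      rw [Set.eq_empty_iff_forall_notMem]
      rintro q ⟨hq1, hq2⟩
      exact hq2 (h2 _ _ hq1).map_eq
    rw [h5, Set.ncard_empty]
    simp only [Nat.cast_zero]
    positivity

/-- **Differences or longer sums.** For an integer `m` let `T_m x = m x` on the circle. No assumption on
entropy or ergodicity is made.

Part one. Let `ν` be an atomless probability measure on the circle, not Lebesgue measure, `s ≥ 3` and
`θ > 0`. Then there is `δ > 0` such that for every probability measure `μ`, all `r ≥ 1 / δ` and all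
integers `a_1, ..., a_r`: if `T_(a_i - a_j) μ = ν` for all but at most `δ r ^ 2` of the pairs `j < i`, then,
for every choice of signs, `T_m μ = ν` with `m = ± a_(i_1) ± ... ± a_(i_s)` for at most `θ r ^ s` of the
`(i_1, ..., i_s)`.

Part two (`μ = ν`, powers). Let `μ` be an atomless probability measure, not Lebesgue measure, `s ≥ 3`,
`θ > 0`. There is `δ > 0` such that for all `p` for which `μ` is `T_p`-invariant and all `K ≥ 1 / δ`: if
`μ` is `T_(p ^ k - 1)`-invariant for all but at most `δ K` of the `1 ≤ k < K`, then, for every choice of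
signs, `μ` is `T_m`-invariant with `m = ± p ^ (k_1) ± ... ± p ^ (k_s)` for at most `θ K ^ s` of the
`(k_1, ..., k_s)` in `[0, K) ^ s`.

Part three (sequences). Let `μ` be an atomless probability measure and `(a_i)` a sequence of integers such
that `μ` is `T_(a_j - a_i)`-invariant for all `i < j` and, for some `s ≥ 3` and some fixed choice of signs,
`T_m`-invariant with `m = ± a_(i_1) ± ... ± a_(i_s)` for all `i_1 < ... < i_s`. Then `μ` is Lebesgue
measure. -/
theorem result :
    (∀ ν : Measure UnitAddCircle, IsProbabilityMeasure ν → (∀ x, ν {x} = 0) → ν ≠ volume →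
      ∀ (s : ℕ) (θ : ℝ), 3 ≤ s → 0 < θ → ∃ δ : ℝ, 0 < δ ∧
      ∀ μ : Measure UnitAddCircle, IsProbabilityMeasure μ → ∀ (r : ℕ) (a : Fin r → ℤ), 1 ≤ δ * r →
      ({q : Fin r × Fin r | q.2 < q.1 ∧ μ.map (fun x => (a q.1 - a q.2) • x) ≠ ν}.ncard : ℝ) ≤ δ * r ^ 2 →
      ∀ e : Fin s → ℤ, (∀ l, e l = 1 ∨ e l = -1) →
      ({t : Fin s → Fin r | μ.map (fun x => (∑ l, e l * a (t l)) • x) = ν}.ncard : ℝ) ≤ θ * r ^ s) ∧
    (∀ μ : Measure UnitAddCircle, IsProbabilityMeasure μ → (∀ x, μ {x} = 0) → μ ≠ volume →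
      ∀ (s : ℕ) (θ : ℝ), 3 ≤ s → 0 < θ → ∃ δ : ℝ, 0 < δ ∧
      ∀ p : ℕ, MeasurePreserving (fun x : UnitAddCircle => p • x) μ μ → ∀ K : ℕ, 1 ≤ δ * K →
      ({k : ℕ | 1 ≤ k ∧ k < K ∧
        ¬ MeasurePreserving (fun x : UnitAddCircle => ((p : ℤ) ^ k - 1) • x) μ μ}.ncard : ℝ) ≤ δ * K →
      ∀ e : Fin s → ℤ, (∀ l, e l = 1 ∨ e l = -1) →
      ({t : Fin s → ℕ | (∀ l, t l < K) ∧
        MeasurePreserving (fun x : UnitAddCircle => (∑ l, e l * (p : ℤ) ^ (t l)) • x) μ μ}.ncard : ℝ) ≤
          θ * K ^ s) ∧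
    (∀ μ : Measure UnitAddCircle, IsProbabilityMeasure μ → (∀ x, μ {x} = 0) → ∀ a : ℕ → ℤ,
      (∀ i j, i < j → MeasurePreserving (fun x : UnitAddCircle => (a j - a i) • x) μ μ) →
      ∀ s : ℕ, 3 ≤ s → ∀ e : Fin s → ℤ, (∀ l, e l = 1 ∨ e l = -1) →
      (∀ t : Fin s → ℕ, StrictMono t →
        MeasurePreserving (fun x : UnitAddCircle => (∑ l, e l * a (t l)) • x) μ μ) → μ = volume) :=
  ⟨fun ν _ hna hne _ _ hs hθ => part_one ν hna hne hs hθ,
    fun μ _ hna hne _ _ hs hθ => part_two μ hna hne hs hθ,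
    fun μ _ hna a h2 _ hs e he h3 => part_three μ hna a h2 hs e he h3⟩

end Pool.Agent.Helper21.Hold.DifferencesOrSumsThreeParts
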