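import Pool.Agent.Helper21K1.Fin

/-!
Suitable weak periodic solutions of the Navier-Stokes equations: a criterion for regular points on
moving cylinders of any proportions, without the pressure and without norms of the velocity, and
the resulting lower bound for the dissipation near a singular point at every scale.
-/

set_option autoImplicit false

open MeasureTheory Set Metric
open scoped ContDiff

namespace Pool.Agent.Results.MP_6bf1e5_an.MovingCylinders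

open H459R3.NS W221.NS Pool.Agent.Y8

/-- First part: let `0 < ρ ≤ r ≤ 1` and let `ξ` be a continuous path such that on the time
interval `I = [t₀ - ρ² / ν, t₀]` the point `ξ t` differs by at most `ε r` from the position
`x₀ - ∫ₜ^{t₀} av r (u s) (ξ s) ds` obtained from the mean velocity over the cubes of radius `r`
around `ξ`. If the dissipation in the moving cylinder, `∫_I ∫_{B_r(ξ t)} |∇u|²`, is at most
`ε ν ρ`, then `(t₀, x₀)` is a regular point. Second part: near a singular point the dissipation in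
`(t₀ - κ r^(5/2) / (|E| + ν), t₀) × B_r(x₀)` is at least `c ν^(3/2) r^(5/4) / (|E| + ν)^(1/2)`, at
every scale `r ≤ 1`. -/
theorem result : ∃ ε κ c : ℝ, 0 < ε ∧ 0 < κ ∧ 0 < c ∧
    ∀ (ν T E D : ℝ) (G : Set ℝ) (u : ℝ → V → V) (p : ℝ → V → ℝ), 0 < ν → Turb ν T E D G u p →
      (∀ (t₀ : ℝ) (x₀ : V) (ρ r : ℝ), t₀ < T → 0 < ρ → ρ ≤ r → r ≤ 1 → ρ ^ 2 / ν < t₀ →
        ∀ ξ : ℝ → V, Continuous ξ →
          (∀ t ∈ Icc (t₀ - ρ ^ 2 / ν) t₀,
            ‖ξ t - x₀ + ∫ s in Ioo t t₀, Helper21K1.av r (u s) (ξ s)‖ ≤ ε * r) →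
          (∫ t in Ioo (t₀ - ρ ^ 2 / ν) t₀, B2 (ξ t) r (u t)) ≤ ε * ν * ρ →
            ¬ SingPt G u t₀ x₀) ∧
      (∀ (t₀ : ℝ) (x₀ : V) (r : ℝ), t₀ < T → SingPt G u t₀ x₀ → 0 < r → r ≤ 1 →
        κ * r ^ (5 / 2 : ℝ) / (|E| + ν) < t₀ →
          c * ν ^ (3 / 2 : ℝ) * r ^ (5 / 4 : ℝ) / √(|E| + ν) ≤
            ∫ t in Ioo (t₀ - κ * r ^ (5 / 2 : ℝ) / (|E| + ν)) t₀, B2 x₀ r (u t)) := by
  obtain ⟨ε, hε, h1⟩ := Helper21K1.p_mix
  obtain ⟨κ, c, hκ, hc, h2⟩ := Helper21K1.p_low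
  refine ⟨ε, κ, c, hε, hκ, hc, fun ν T E D G u p hν hT => ⟨?_, ?_⟩⟩
  · intro t₀ x₀ ρ r htT hρ hρr hr hρt ξ hξ hd hB
    exact h1 ν T E D G u p hν hT ρ r t₀ hρ hρr hr hρt htT x₀ ξ hξ hd hB
  · intro t₀ x₀ r htT hs hr hr1 hκt
    exact h2 ν T E D G u p hν hT t₀ x₀ hs r hr hr1 hκt htT

end Pool.Agent.Results.MP_6bf1e5_an.MovingCylinders
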